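import Pool.Agent.P.MP_2c43e6_an.EntD

set_option autoImplicit false

open MeasureTheory Filter Pool.Agent.P.MP_2c43e6_an
open scoped ENNReal Topology

namespace Pool.Agent.Results.MP_2c43e6_an.ExactLoss

/-- `S T` is the supremum of the ratio of the norm of `M` to the one-supremum constant over the
`A_p` weights whose two-suprema constant is at most `T` times the one-supremum constant; it has
the exact order `(1 + log T)^(1/p)`. -/
theorem result (n : ℕ) (hn : 1 ≤ n) (p p' : ℝ) (hp : 1 < p) (hp' : p' = p / (p - 1))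
    (S : ℝ → ℝ≥0∞)
    (hS : ∀ T, S T = ⨆ (w : (Fin n → ℝ) → ℝ) (_ : Measurable w) (_ : ∀ᵐ x, 0 < w x)
      (_ : LocallyIntegrable w volume) (_ : AqConst p (fun x => ENNReal.ofReal (w x)) < ⊤)
      (_ : AqConst p' (fun x => ENNReal.ofReal (w x) ^ (1 - p')) ^ (1 / p') *
        (⨆ (Q : Set (Fin n → ℝ)) (_ : IsCube Q),
          Ainf (fun x => ENNReal.ofReal (w x) ^ (1 - p')) Q) ^ (1 / p) ≤
        ENNReal.ofReal T *
          mixedConst p' (1 / p') (1 / p) (fun x => ENNReal.ofReal (w x) ^ (1 - p'))),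
      maxNorm p (fun x => ENNReal.ofReal (w x)) /
        mixedConst p' (1 / p') (1 / p) (fun x => ENNReal.ofReal (w x) ^ (1 - p'))) :
    ∃ (c C : NNReal) (T₀ : ℝ), 0 < c ∧
      (∀ T, 1 ≤ T → S T ≤ C * ENNReal.ofReal ((1 + Real.log T) ^ (1 / p))) ∧
      ∀ T, T₀ ≤ T → c * ENNReal.ofReal ((1 + Real.log T) ^ (1 / p)) ≤ S T := by
  obtain ⟨C, hC⟩ := Pool.Agent.Ent.main n p p' hp hp'
  obtain ⟨c, hc, h⟩ := Pool.Agent.Ent.lower n hn p p' hp hp'
  obtain ⟨T₀, h⟩ := Filter.eventually_atTop.1 h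
  refine ⟨c, C, T₀, hc, fun T hT => ?_, fun T hT => ?_⟩
  · rw [hS]
    exact iSup₂_le fun w h1 => iSup₂_le fun h2 _ => iSup₂_le fun h3 h4 =>
      ENNReal.div_le_of_le_mul (hC w h1 h2 h3 T hT h4)
  · obtain ⟨w, h1, h2, h3, h4, h5, h6, h7, h8⟩ := h T hT
    rw [hS]
    exact le_iSup₂_of_le w h1 (le_iSup₂_of_le (.of_forall h2) h3 (le_iSup₂_of_le h4 h7
      ((ENNReal.le_div_iff_mul_le (Or.inl h5.ne') (Or.inl h6.ne)).2 h8)))

/-- From `result`: `S T` is unbounded, so the bound asked in Q1 fails in every dimension and for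
every `p`. -/
theorem q1_fails (n : ℕ) (hn : 1 ≤ n) (p p' : ℝ) (hp : 1 < p) (hp' : p' = p / (p - 1)) :
    ¬ ∃ C : NNReal, ∀ w : (Fin n → ℝ) → ℝ, Measurable w → (∀ᵐ x, 0 < w x) →
      LocallyIntegrable w volume → AqConst p (fun x => ENNReal.ofReal (w x)) < ⊤ →
      maxNorm p (fun x => ENNReal.ofReal (w x)) ≤
        C * mixedConst p' (1 / p') (1 / p) (fun x => ENNReal.ofReal (w x) ^ (1 - p')) := by
  rintro ⟨K, hK⟩
  obtain ⟨c, C, T₀, hc, -, h⟩ := result n hn p p' hp hp' _ (fun _ => rfl)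
  have hq : 0 < 1 / p := by positivity
  have ht : Tendsto (fun T : ℝ => (c : ℝ) * (1 + Real.log T) ^ (1 / p)) atTop atTop :=
    ((tendsto_rpow_atTop hq).comp
      (tendsto_atTop_add_const_left _ 1 Real.tendsto_log_atTop)).const_mul_atTop
        (NNReal.coe_pos.2 hc)
  obtain ⟨T, h1, h2⟩ := ((ht.eventually_gt_atTop (K : ℝ)).and (eventually_ge_atTop T₀)).exists
  have h3 : (c : ℝ≥0∞) * ENNReal.ofReal ((1 + Real.log T) ^ (1 / p)) ≤ K :=
    (h T h2).trans (iSup₂_le fun w a => iSup₂_le fun b d => iSup₂_le fun e _ =>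
      ENNReal.div_le_of_le_mul (hK w a b d e))
  rw [← ENNReal.ofReal_coe_nnreal, ← ENNReal.ofReal_mul c.coe_nonneg,
    ← ENNReal.ofReal_coe_nnreal (p := K), ENNReal.ofReal_le_ofReal_iff K.coe_nonneg] at h3
  exact absurd h1 (not_lt.2 h3)

/-- The upper half for a single weight, with the product form of the bound. -/
theorem upper_bound (n : ℕ) (p p' : ℝ) (hp : 1 < p) (hp' : p' = p / (p - 1)) :
    ∃ C : NNReal, ∀ w : (Fin n → ℝ) → ℝ, Measurable w → (∀ᵐ x, 0 < w x) →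
      AqConst p (fun x => ENNReal.ofReal (w x)) < ⊤ → ∀ T : ℝ, 1 ≤ T →
      AqConst p' (fun x => ENNReal.ofReal (w x) ^ (1 - p')) ^ (1 / p') *
        (⨆ (Q : Set (Fin n → ℝ)) (_ : IsCube Q),
          Ainf (fun x => ENNReal.ofReal (w x) ^ (1 - p')) Q) ^ (1 / p) ≤
        ENNReal.ofReal T *
          mixedConst p' (1 / p') (1 / p) (fun x => ENNReal.ofReal (w x) ^ (1 - p')) →
      maxNorm p (fun x => ENNReal.ofReal (w x)) ≤
        C * ENNReal.ofReal ((1 + Real.log T) ^ (1 / p)) *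
          mixedConst p' (1 / p') (1 / p) (fun x => ENNReal.ofReal (w x) ^ (1 - p')) :=
  Pool.Agent.Ent.main n p p' hp hp'

/-- The negated form of Q1 as the problem file words it: a sequence of `A_p` weights along which
the ratio of the norm to the one-supremum constant tends to infinity. -/
theorem negated_form
    (n : ℕ) (hn : 1 ≤ n) (p p' : ℝ) (hp : 1 < p) (hp' : p' = p / (p - 1)) :
    ∃ w : ℕ → (Fin n → ℝ) → ℝ,
      (∀ k, (∀ x, 0 < w k x) ∧ Measurable (w k) ∧ LocallyIntegrable (w k) volume ∧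
        AqConst p (fun x => ENNReal.ofReal (w k x)) < ⊤ ∧
        0 < mixedConst p' (1 / p') (1 / p) (fun x => ENNReal.ofReal (w k x) ^ (1 - p')) ∧
        mixedConst p' (1 / p') (1 / p) (fun x => ENNReal.ofReal (w k x) ^ (1 - p')) < ⊤) ∧
      Tendsto (fun k => maxNorm p (fun x => ENNReal.ofReal (w k x)) /
        mixedConst p' (1 / p') (1 / p) (fun x => ENNReal.ofReal (w k x) ^ (1 - p')))
        atTop (𝓝 ⊤) :=
  Pool.Agent.P.MP_2c43e6_an.main n hn p p' hp hp'

end Pool.Agent.Results.MP_2c43e6_an.ExactLoss
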