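import Pool.Agent.P.MP_2c43e6_an.LpC
import Pool.Agent.P.MP_2c43e6_an.LpD

set_option autoImplicit false

open MeasureTheory Filter Pool.Agent.P.MP_2c43e6_an
open scoped ENNReal Topology

namespace Pool.Agent.Results.MP_2c43e6_an.LogPower

/-- The one-supremum bound with the extra local factor `(1 + log A_inf(σ, Q))^(s/p)` holds for all
`A_p` weights exactly when `1 < s`. The case `s = 0` is Q1. -/
theorem result (n : ℕ) (hn : 1 ≤ n) (p p' s : ℝ) (hp : 1 < p) (hp' : p' = p / (p - 1)) :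
    (∃ C : NNReal, ∀ w : (Fin n → ℝ) → ℝ, Measurable w → (∀ᵐ x, 0 < w x) →
      LocallyIntegrable w volume → AqConst p (fun x => ENNReal.ofReal (w x)) < ⊤ →
      maxNorm p (fun x => ENNReal.ofReal (w x)) ≤
        C * ⨆ (Q : Set (Fin n → ℝ)) (_ : IsCube Q),
          Aq p' (fun x => ENNReal.ofReal (w x) ^ (1 - p')) Q ^ (1 / p') *
            (Ainf (fun x => ENNReal.ofReal (w x) ^ (1 - p')) Q * ENNReal.ofReal
              ((1 + Real.log (Ainf (fun x => ENNReal.ofReal (w x) ^ (1 - p')) Q).toReal) ^ s)) ^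
              (1 / p)) ↔ 1 < s := by
  refine ⟨fun ⟨C, hC⟩ => ?_, fun hs => ?_⟩
  · by_contra hs
    obtain ⟨w, h1, h2, h3, h4, h5⟩ := Pool.Agent.LogP.lp_lower hn hp hp' (not_lt.1 hs) C
    exact absurd (hC w h1 (.of_forall h2) h3 h4) (not_le.2 h5)
  · obtain ⟨C, hC⟩ := Pool.Agent.LogP.lp_upper n p p' s hp hp' hs
    exact ⟨C, fun w h1 h2 _ h4 => hC w h1 h2 h4⟩

/-- The instance `s = 0`: the bound asked in Q1 fails in every dimension and for every `p`. -/
theorem q1_fails (n : ℕ) (hn : 1 ≤ n) (p p' : ℝ) (hp : 1 < p) (hp' : p' = p / (p - 1)) :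
    ¬ ∃ C : NNReal, ∀ w : (Fin n → ℝ) → ℝ, Measurable w → (∀ᵐ x, 0 < w x) →
      LocallyIntegrable w volume → AqConst p (fun x => ENNReal.ofReal (w x)) < ⊤ →
      maxNorm p (fun x => ENNReal.ofReal (w x)) ≤
        C * mixedConst p' (1 / p') (1 / p) (fun x => ENNReal.ofReal (w x) ^ (1 - p')) := by
  intro h
  have h0 := (result n hn p p' 0 hp hp').1 (by
    simpa only [Real.rpow_zero, ENNReal.ofReal_one, mul_one, mixedConst] using h)
  exact absurd h0 (by norm_num)

/-- The negated form of Q1 as the problem file words it: a sequence of `A_p` weights along which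
the ratio of the norm to the one-supremum constant tends to infinity. -/
theorem negated_form
    (n : ℕ) (hn : 1 ≤ n) (p p' : ℝ) (hp : 1 < p) (hp' : p' = p / (p - 1)) :
    ∃ w : ℕ → (Fin n → ℝ) → ℝ,
      (∀ k, (∀ x, 0 < w k x) ∧ Measurable (w k) ∧ LocallyIntegrable (w k) volume ∧
        AqConst p (fun x => ENNReal.ofReal (w k x)) < ⊤ ∧
        0 < mixedConst p' (1 / p') (1 / p) (fun x => ENNReal.ofReal (w k x) ^ (1 - p')) ∧
        mixedConst p' (1 / p') (1 / p) (fun x => ENNReal.ofReal (w k x) ^ (1 - p')) < ⊤) ∧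
      Tendsto (fun k => maxNorm p (fun x => ENNReal.ofReal (w k x)) /
        mixedConst p' (1 / p') (1 / p) (fun x => ENNReal.ofReal (w k x) ^ (1 - p')))
        atTop (𝓝 ⊤) :=
  Pool.Agent.P.MP_2c43e6_an.main n hn p p' hp hp'

end Pool.Agent.Results.MP_2c43e6_an.LogPower
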